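import Pool.Agent.Lib.MP_a31e1e_gt.H58.Basic

/-!
# MCHS: charts of the part of the surface on `Sigma` (project TIGHT)
-/

open scoped ContDiff Manifold Topology RealInnerProductSpace
open Set Metric

namespace Pool.Agent.Tight.H58

/-- the open set of `E3` away from the floor -/
def Away (ρ : ℝ) : Set E3 := {x | nn x < 4 ∧ (4 * ρ ^ 2 < nn x ∨ 1 / 8 < |x 2 + 1|)}

lemma isOpen_away (ρ : ℝ) : IsOpen (Away ρ) := by
  have h1 := cont_nn
  have h2 : Continuous fun x : E3 => |x 2 + 1| := by fun_prop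
  exact (isOpen_lt h1 continuous_const).inter
    ((isOpen_lt continuous_const h1).union (isOpen_lt continuous_const h2))

/-- points of the surface away from the floor lie on `Sigma`, with label `0` -/
lemma away_sig (hR : FloorRegStatement) {ρ l : ℝ} (hp : Par ρ l) {q : E3 × ℂ}
    (hq : q ∈ Surf ρ l) (ha : q.1 ∈ Away ρ) : q.1 ∈ SigPart ρ ∧ q.2 = 0 := by
  rcases hq with ⟨b, hb, rfl⟩ | h
  · exfalso
    have hρ := hp.hρ
    have h1 : nn (floorX ρ l b) ≤ 9 * ρ ^ 2 := hb.trans (by nlinarith)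
    have h2 := ((hR ρ l hp).1 b h1).2.2
    rcases ha.2 with h | h
    · exact absurd hb (not_le.2 h)
    · exact absurd h (not_lt.2 h2.le)
  · exact h

lemma sig_mem_of_away {ρ : ℝ} {x : E3} (ha : x ∈ Away ρ) (hF : FS x = 0) : x ∈ SigPart ρ :=
  ⟨hF, ha.1, ha.2.imp le_of_lt le_of_lt⟩

theorem mchs (hL : LevelChartStatement) (hS : SigRegStatement) (hR : FloorRegStatement) :
    ChartSigStatement := by
  classical
  intro ρ l hp p hsig haway
  have hFS : ContDiff ℝ ∞ FS := by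
    unfold FS mm tt nn cc
    fun_prop
  set x₀ : E3 := (p : E3 × ℂ).1 with hx₀
  have hxA : x₀ ∈ Away ρ := ⟨hsig.2.1, haway⟩
  have hp2 : (p : E3 × ℂ).2 = 0 := (away_sig hR hp p.2 hxA).2
  obtain ⟨V, φ, a, hV, haV, hφa, hφs, hφi, hφF, hφd, hφo⟩ := hL FS x₀ hFS hsig.1
    (hS.2.2.2.2.1 x₀ hsig.1 hsig.2.1.le)
  have hφc : ContinuousOn φ V := hφs.continuousOn
  set V' : Set E2 := V ∩ φ ⁻¹' (Away ρ) with hV'
  have hV'o : IsOpen V' := hφc.isOpen_inter_preimage hV (isOpen_away ρ)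
  have hmem : ∀ b ∈ V', ((φ b, (0 : ℂ)) : E3 × ℂ) ∈ Surf ρ l := fun b hb =>
    Or.inr ⟨sig_mem_of_away hb.2 (hφF b hb.1), rfl⟩
  let Φ : E2 → Surf ρ l := fun b => if h : b ∈ V' then ⟨(φ b, 0), hmem b h⟩ else p
  have hΦ : ∀ b ∈ V', ((Φ b : Surf ρ l) : E3 × ℂ) = (φ b, 0) := by
    intro b hb
    simp only [Φ]
    rw [dif_pos hb]
  have hcomp : ∀ b ∈ V', ((fun p : Surf ρ l => (p : E3 × ℂ).1) ∘ Φ) b = φ b := by
    intro b hb
    simp only [Function.comp_apply, hΦ b hb]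
  have haV' : a ∈ V' := ⟨haV, by rw [mem_preimage, hφa]; exact hxA⟩
  refine ⟨V', Φ, a, ⟨hV'o, haV', ?_, ?_, ?_, ?_, ?_, ?_⟩, ?_⟩
  · apply Subtype.ext
    rw [hΦ a haV', hφa]
    exact Prod.ext rfl hp2.symm
  · rw [Topology.IsInducing.subtypeVal.continuousOn_iff]
    refine ContinuousOn.congr (f := fun b => (φ b, (0 : ℂ))) ?_ fun b hb => hΦ b hb
    exact (hφc.mono inter_subset_left).prodMk continuousOn_const
  · intro b hb b' hb' h
    have h1 : ((Φ b : Surf ρ l) : E3 × ℂ) = ((Φ b' : Surf ρ l) : E3 × ℂ) := by rw [h]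
    rw [hΦ b hb, hΦ b' hb'] at h1
    exact hφi hb.1 hb'.1 (Prod.ext_iff.1 h1).1
  · intro W hW hWo
    obtain ⟨O, hO, hOW⟩ := hφo W (hW.trans inter_subset_left) hWo
    have hcv : Continuous fun q : Surf ρ l => (q : E3 × ℂ).1 :=
      continuous_fst.comp continuous_subtype_val
    have : Φ '' W = (fun q : Surf ρ l => (q : E3 × ℂ).1) ⁻¹' (O ∩ Away ρ) := by
      ext q
      constructor
      · rintro ⟨b, hb, rfl⟩
        have h1 : φ b ∈ φ '' W := ⟨b, hb, rfl⟩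
        rw [hOW] at h1
        rw [mem_preimage, hΦ b (hW hb)]
        exact ⟨h1.1, (hW hb).2⟩
      · intro hq
        have h1 := away_sig hR hp q.2 hq.2
        have h2 : (q : E3 × ℂ).1 ∈ {x | x ∈ O ∧ FS x = 0} := ⟨hq.1, h1.1.1⟩
        rw [← hOW] at h2
        obtain ⟨b, hb, hbq⟩ := h2
        refine ⟨b, hb, ?_⟩
        apply Subtype.ext
        rw [hΦ b (hW hb)]
        exact Prod.ext hbq h1.2.symm
    rw [this]
    exact (hO.inter (isOpen_away ρ)).preimage hcv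
  · exact (hφs.mono inter_subset_left).congr fun b hb => hcomp b hb
  · intro b hb
    have : ((fun p : Surf ρ l => (p : E3 × ℂ).1) ∘ Φ) =ᶠ[𝓝 b] φ := by
      filter_upwards [hV'o.mem_nhds hb] with b' hb' using hcomp b' hb'
    rw [this.fderiv_eq]
    exact hφd b hb.1
  · intro b hb
    rw [hΦ b hb]
    exact hφF b hb.1

end Pool.Agent.Tight.H58
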