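import Pool.Agent.Lib.MP_a31e1e_gt.H58.Mchs

/-!
# MCOMP: the surface is compact and nonempty (project TIGHT)
-/

open scoped ContDiff Manifold Topology RealInnerProductSpace
open Set Metric

namespace Pool.Agent.Tight.H58

/-- the part of the surface on the floor -/
def FloorSet (ρ l : ℝ) : Set (E3 × ℂ) :=
  {p | ∃ b : E2, nn (floorX ρ l b) ≤ 4 * ρ ^ 2 ∧ p = floorP ρ l b}

/-- the fundamental domain -/
def FundD (ρ l r : ℝ) : Set E2 :=
  {b | 0 ≤ b 0 ∧ b 0 ≤ Real.pi ∧ nn (floorX ρ l b) ≤ r}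

lemma cont_nnfloor (hR : FloorRegStatement) {ρ l : ℝ} (hp : Par ρ l) :
    Continuous fun b : E2 => nn (floorX ρ l b) := by
  have h := (hR ρ l hp).2.2.2.2.2
  have : (fun b : E2 => nn (floorX ρ l b)) =
      fun b => l ^ 2 * (b 1 ^ 2 + 2 * b 1 * Real.cos (3 * b 0) + 1) := funext h
  rw [this]
  fun_prop

lemma nnfloor_lower (hR : FloorRegStatement) {ρ l : ℝ} (hp : Par ρ l) (b : E2) :
    l ^ 2 * (|b 1| - 1) ^ 2 ≤ nn (floorX ρ l b) := by
  rw [(hR ρ l hp).2.2.2.2.2 b]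
  apply mul_le_mul_of_nonneg_left _ (sq_nonneg l)
  have h1 := Real.neg_one_le_cos (3 * b 0)
  have h2 := Real.cos_le_one (3 * b 0)
  have h3 : |b 1| ^ 2 = b 1 ^ 2 := sq_abs _
  rcases le_total 0 (b 1) with h | h
  · rw [abs_of_nonneg h]
    nlinarith
  · rw [abs_of_nonpos h]
    nlinarith

lemma continuousAt_floorP (hR : FloorRegStatement) {ρ l : ℝ} (hp : Par ρ l) (b : E2)
    (hb : nn (floorX ρ l b) ≤ 9 * ρ ^ 2) : ContinuousAt (floorP ρ l) b := by
  have h1 : ContinuousAt (floorX ρ l) b := (((hR ρ l hp).1 b hb).1).continuousAt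
  have h2 : Continuous (lab ρ l) := by
    unfold lab
    have := cont_nnfloor hR hp
    fun_prop
  exact h1.prodMk h2.continuousAt

lemma isCompact_fundD (hR : FloorRegStatement) {ρ l : ℝ} (hp : Par ρ l) (r : ℝ) :
    IsCompact (FundD ρ l r) := by
  have hl := hp.hl
  have hc := cont_nnfloor hR hp
  have hclosed : IsClosed (FundD ρ l r) := by
    have e : FundD ρ l r = {b : E2 | 0 ≤ b 0} ∩ ({b : E2 | b 0 ≤ Real.pi} ∩
        {b : E2 | nn (floorX ρ l b) ≤ r}) := rfl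
    rw [e]
    exact (isClosed_le continuous_const (by fun_prop)).inter
      ((isClosed_le (by fun_prop) continuous_const).inter (isClosed_le hc continuous_const))
  refine Metric.isCompact_of_isClosed_isBounded hclosed ?_
  rw [isBounded_iff_forall_norm_le]
  set R : ℝ := √(|r| / l ^ 2) + 1 with hRdef
  have hR0 : 0 ≤ √(|r| / l ^ 2) := Real.sqrt_nonneg _
  refine ⟨√(Real.pi ^ 2 + R ^ 2), fun b hb => ?_⟩
  rw [EuclideanSpace.norm_eq]
  apply Real.sqrt_le_sqrt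
  rw [Fin.sum_univ_two]
  have h1 : ‖b 0‖ ^ 2 ≤ Real.pi ^ 2 := by
    rw [Real.norm_eq_abs, sq_abs]
    exact pow_le_pow_left₀ hb.1 hb.2.1 2
  have h2 : ‖b 1‖ ^ 2 ≤ R ^ 2 := by
    apply pow_le_pow_left₀ (norm_nonneg _)
    rw [Real.norm_eq_abs]
    have h3 := (nnfloor_lower hR hp b).trans (hb.2.2.trans (le_abs_self r))
    have h4 : (|b 1| - 1) ^ 2 ≤ |r| / l ^ 2 := by
      rw [le_div_iff₀ (by positivity)]
      linarith
    have h5 : |b 1| - 1 ≤ √(|r| / l ^ 2) := Real.le_sqrt_of_sq_le h4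
    linarith
  exact add_le_add h1 h2

/-- reduction to the fundamental domain -/
lemma exists_fund (hI : FloorInjStatement) {ρ l : ℝ} (hp : Par ρ l) (b : E2) :
    ∃ b' : E2, 0 ≤ b' 0 ∧ b' 0 < Real.pi ∧ floorP ρ l b' = floorP ρ l b := by
  have hpi := Real.pi_pos
  set k : ℤ := ⌊b 0 / Real.pi⌋ with hk
  have h1 := Int.floor_le (b 0 / Real.pi)
  have h2 := Int.lt_floor_add_one (b 0 / Real.pi)
  rw [← hk] at h1 h2
  rw [le_div_iff₀ hpi] at h1
  rw [div_lt_iff₀ hpi] at h2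
  refine ⟨!₂[b 0 - k * Real.pi, (-1 : ℝ) ^ (-k) * b 1], ?_, ?_, ?_⟩
  · simp; linarith
  · simp; linarith
  · symm
    apply (hI ρ l hp).2
    refine ⟨-k, ?_, ?_⟩
    · simp; ring
    · simp

lemma floorSet_eq (hI : FloorInjStatement) {ρ l : ℝ} (hp : Par ρ l) :
    FloorSet ρ l = floorP ρ l '' FundD ρ l (4 * ρ ^ 2) := by
  ext p
  constructor
  · rintro ⟨b, hb, rfl⟩
    obtain ⟨b', h1, h2, h3⟩ := exists_fund hI hp b
    refine ⟨b', ⟨h1, h2.le, ?_⟩, h3⟩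
    have : floorX ρ l b' = floorX ρ l b := (Prod.ext_iff.1 h3).1
    rw [this]
    exact hb
  · rintro ⟨b, hb, rfl⟩
    exact ⟨b, hb.2.2, rfl⟩

lemma isCompact_floorSet (hR : FloorRegStatement) (hI : FloorInjStatement) {ρ l : ℝ}
    (hp : Par ρ l) : IsCompact (FloorSet ρ l) := by
  rw [floorSet_eq hI hp]
  refine (isCompact_fundD hR hp _).image_of_continuousOn fun b hb => ?_
  have hρ := hp.hρ
  exact (continuousAt_floorP hR hp b (hb.2.2.trans (by nlinarith))).continuousWithinAt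

lemma sigPart_eq (hS : SigRegStatement) (ρ : ℝ) :
    SigPart ρ = {x | FS x = 0 ∧ nn x ≤ 4 ∧ (4 * ρ ^ 2 ≤ nn x ∨ 1 / 8 ≤ |x 2 + 1|)} := by
  ext x
  constructor
  · rintro ⟨h1, h2, h3⟩
    exact ⟨h1, h2.le, h3⟩
  · rintro ⟨h1, h2, h3⟩
    exact ⟨h1, (hS.2.1 x h1 h2).2.1, h3⟩

lemma isCompact_sigPart (hS : SigRegStatement) (ρ : ℝ) : IsCompact (SigPart ρ) := by
  refine Metric.isCompact_of_isClosed_isBounded ?_ ?_
  · rw [sigPart_eq hS]
    have h1 := cont_nn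
    have h2 : Continuous fun x : E3 => |x 2 + 1| := by fun_prop
    have e : {x | FS x = 0 ∧ nn x ≤ 4 ∧ (4 * ρ ^ 2 ≤ nn x ∨ 1 / 8 ≤ |x 2 + 1|)} =
        {x | FS x = 0} ∩ ({x | nn x ≤ 4} ∩ ({x | 4 * ρ ^ 2 ≤ nn x} ∪
          {x | 1 / 8 ≤ |x 2 + 1|})) := rfl
    rw [e]
    exact (isClosed_eq cont_FS continuous_const).inter ((isClosed_le h1 continuous_const).inter
      ((isClosed_le continuous_const h1).union (isClosed_le continuous_const h2)))
  · rw [isBounded_iff_forall_norm_le]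
    exact ⟨5, fun x hx => hS.2.2.2.2.2.1 x hx.1 hx.2.1.le⟩

lemma surf_eq (ρ l : ℝ) : Surf ρ l = FloorSet ρ l ∪ SigPart ρ ×ˢ {(0 : ℂ)} := by
  ext p
  constructor
  · rintro (h | ⟨h1, h2⟩)
    · exact Or.inl h
    · exact Or.inr ⟨h1, h2⟩
  · rintro (h | ⟨h1, h2⟩)
    · exact Or.inl h
    · exact Or.inr ⟨h1, h2⟩

theorem mcomp (hR : FloorRegStatement) (hI : FloorInjStatement) (hS : SigRegStatement) :
    CompStatement := by
  intro ρ l hp
  constructor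
  · rw [surf_eq]
    exact (isCompact_floorSet hR hI hp).union ((isCompact_sigPart hS ρ).prod isCompact_singleton)
  · refine ⟨floorP ρ l !₂[0, -1], Or.inl ⟨_, ?_, rfl⟩⟩
    rw [(hR ρ l hp).2.2.2.2.2]
    have := hp.hρ
    simp
    nlinarith

end Pool.Agent.Tight.H58
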