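import Pool.Agent.Lib.MP_a31e1e_gt.H58.Pos

/-!
# CWCOV: every point of the surface satisfies the description of a cell (project TIGHT)
-/

open scoped ContDiff Manifold Topology RealInnerProductSpace
open Set Metric

namespace Pool.Agent.Tight.H58

lemma code_circ (ρ l : ℝ) {θ : ℝ} (h0 : 0 ≤ θ) (h1 : θ < 2 * Real.pi) :
    ∃ (n : ℕ) (i : CI n), Code ρ l n i (circ ρ θ) := by
  rcases ang_cover h0 h1 with ⟨i, hi⟩ | ⟨i, hi1, hi2⟩
  · refine ⟨0, Sum.inr (Sum.inr i), ?_⟩
    show circ ρ θ = circ ρ (ang i.castSucc)
    rw [← hi]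
  · refine ⟨1, Sum.inr (Sum.inr (Sum.inr (Sum.inl i))), ?_⟩
    exact ⟨θ, hi1, hi2, rfl⟩

/-- the point of the floor of `Sigma` -/
lemma code_low {ρ l : ℝ} (hp : Par ρ l) {z : E3 × ℂ} (h2 : z.2 = 0) (hN : nn z.1 = 4 * ρ ^ 2)
    (hz : z.1 2 = hS z.1) : ∃ (n : ℕ) (i : CI n), Code ρ l n i z := by
  obtain ⟨θ, h0, h1, h⟩ := exists_circ hp.hρ hN hz
  have : z = circ ρ θ := by rw [← h]; exact Prod.ext rfl h2
  rw [this]
  exact code_circ ρ l h0 h1

lemma rho_small {ρ l : ℝ} (hp : Par ρ l) : 4 * ρ ^ 2 ≤ 1 / 1000 ∧ 0 < 4 * ρ ^ 2 := by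
  have h1 := hp.hρ
  have h2 := hp.hρ'
  constructor
  · nlinarith
  · positivity

lemma fin3_next : ∀ j k : Fin 3, j ≠ k → j = k + 1 ∨ j = k + 2 := by decide

theorem cwCov (hR : FloorRegStatement) (hI : FloorInjStatement) (hS : SigRegStatement) :
    CWCovStatement := by
  intro ρ l hp z hz
  obtain ⟨hρs, hρ0⟩ := rho_small hp
  rcases hz with ⟨b, hb, rfl⟩ | ⟨⟨hF, hN4, hfl⟩, h2⟩
  · have hb9 : nn (floorX ρ l b) ≤ 9 * ρ ^ 2 := by linarith
    rcases hb.lt_or_eq with hlt | heq
    · obtain ⟨b', h0, h1, hbb⟩ := exists_fund hI hp b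
      have hb' : b' = !₂[b' 0, b' 1] := by
        ext i
        fin_cases i <;> rfl
      rw [← hbb]
      have hnn : nn (floorP ρ l b').1 < 4 * ρ ^ 2 := by rw [hbb]; exact hlt
      rcases h0.lt_or_eq with h0 | h0
      · refine ⟨2, Sum.inr (), hnn, b' 0, b' 1, h0, h1, ?_⟩
        rw [← hb']
      · refine ⟨1, Sum.inr (Sum.inr (Sum.inr (Sum.inr ()))), hnn, b' 1, ?_⟩
        rw [h0, ← hb']
    · have h3 := ((hR ρ l hp).2.2.2.1 b heq.ge hb9).2.2
      refine code_low hp ?_ heq h3
      show lab ρ l b = 0
      unfold lab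
      rw [heq, max_eq_right (by nlinarith [hp.hρ])]
      simp
  · -- the point on Sigma
    obtain ⟨hprism, -, -⟩ := hS.2.1 z.1 hF hN4.le
    -- points which are low
    have hlow : mm z.1 < 0 → z.1 2 < 0 → nn z.1 ≤ 4 * ρ ^ 2 →
        ∃ (n : ℕ) (i : CI n), Code ρ l n i z := by
      intro hm hx hn
      have h4 := inner_low hF (hn.trans hρs) hm.le hx.le
      rcases hn.lt_or_eq with hn | hn
      · exfalso
        rcases hfl with h | h
        · exact absurd hn (not_lt.2 h)
        · exact absurd h4 (not_lt.2 h)
      · exact code_low hp h2 hn (floor_hS hF hm.le hx.le)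
    rcases position z.1 with h0 | ⟨j, hj⟩ | ⟨k, hk⟩
    · -- centre
      have htt : tt z.1 = 4 := by
        rw [hS.1, ell_of_zero h0, ell_of_zero h0, ell_of_zero h0]; norm_num
      have h1 := FS_zero hF
      rw [htt] at h1
      have hmm : mm z.1 = z.1 2 ^ 2 - 9 := by rw [mm_def, h0]; ring
      have hx0 : z.1 2 ≠ 0 := by
        intro h; rw [hmm, h] at h1; norm_num at h1
      rcases lt_trichotomy (mm z.1) 0 with hm | hm | hm
      · rcases lt_or_gt_of_ne hx0 with hx | hx
        · exact hlow hm hx (by rw [h0]; exact hρ0.le)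
        · exact ⟨0, Sum.inl 2, h2, hF, h0, hm, hx⟩
      · rw [hm] at h1; norm_num at h1
      · rcases lt_or_gt_of_ne hx0 with hx | hx
        · exact ⟨0, Sum.inl 1, h2, hF, h0, hm, hx⟩
        · exact ⟨0, Sum.inl 0, h2, hF, h0, hm, hx⟩
    · -- segment
      have hnn1 : nn z.1 ≤ 1 := by
        have e1 := nn_eq' z.1
        have e2 := ell_sum z.1
        have e3 := hprism j
        fin_cases j
        · have a1 := hj 1 (by decide)
          have a2 : ell 1 z.1 = ell 2 z.1 := a1.2
          have a3 : ell 0 z.1 < ell 1 z.1 := a1.1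
          change 0 ≤ ell 0 z.1 at e3
          rw [← a2] at e1 e2
          have e4 : ell 1 z.1 = (3 - ell 0 z.1) / 2 := by linarith
          rw [e4] at e1 a3
          nlinarith
        · have a1 := hj 0 (by decide)
          have a2 : ell 0 z.1 = ell 2 z.1 := a1.2
          have a3 : ell 1 z.1 < ell 0 z.1 := a1.1
          change 0 ≤ ell 1 z.1 at e3
          rw [← a2] at e1 e2
          have e4 : ell 0 z.1 = (3 - ell 1 z.1) / 2 := by linarith
          rw [e4] at e1 a3
          nlinarith
        · have a1 := hj 0 (by decide)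
          have a2 : ell 0 z.1 = ell 1 z.1 := a1.2
          have a3 : ell 2 z.1 < ell 0 z.1 := a1.1
          change 0 ≤ ell 2 z.1 at e3
          rw [← a2] at e1 e2
          have e4 : ell 0 z.1 = (3 - ell 2 z.1) / 2 := by linarith
          rw [e4] at e1 a3
          nlinarith
      rcases (hprism j).lt_or_eq with hpos | hzero
      · -- inner part of the segment
        have hO : z.1 ∈ PrismO := by
          intro i
          by_cases hij : i = j
          · rw [hij]; exact hpos
          · exact hpos.trans (hj i hij).1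
        rcases lt_or_gt_of_ne (mm_ne hF hO hS) with hm | hm
        · -- inner sheet: `z 2 ≠ 0`
          have hx0 : z.1 2 ≠ 0 := by
            intro h
            -- `qq = 0`, but `qq ≥ 1` on the segment
            have e1 := nn_eq' z.1
            have e2 := ell_sum z.1
            have e3 := FS_zero hF
            rw [hS.1] at e3
            have e5 : mm z.1 = 3 * nn z.1 - 9 := by rw [mm_def, h]; ring
            have main : ∀ a b : ℝ, 0 < a → a < b → a + b + b = 3 →
                nn z.1 = 2 / 3 * (a ^ 2 + b ^ 2 + b ^ 2) - 2 →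
                mm z.1 ^ 2 = 16 * (4 * (a * b * b)) → False := by
              intro a b ha hab hs hn hmm
              have hb : b = (3 - a) / 2 := by linarith
              rw [e5, hn, hb] at hmm
              rw [hb] at hab
              have ha1 : a < 1 := by linarith
              have : 3 * (2 / 3 * (a ^ 2 + ((3 - a) / 2) ^ 2 + ((3 - a) / 2) ^ 2) - 2) - 9
                  = 3 * a ^ 2 - 6 * a - 6 := by ring
              rw [this] at hmm
              nlinarith [mul_pos ha (sub_pos.2 ha1), mul_pos ha ha,
                mul_pos (mul_pos ha ha) (sub_pos.2 ha1)]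
            fin_cases j
            · have a1 := hj 1 (by decide)
              have a2 : ell 1 z.1 = ell 2 z.1 := a1.2
              refine main (ell 0 z.1) (ell 1 z.1) hpos a1.1 ?_ ?_ ?_
              · rw [a2] at e2 ⊢; exact e2
              · rw [a2] at e1 ⊢; exact e1
              · rw [a2] at e3 ⊢; exact e3
            · have a1 := hj 0 (by decide)
              have a2 : ell 0 z.1 = ell 2 z.1 := a1.2
              refine main (ell 1 z.1) (ell 0 z.1) hpos a1.1 ?_ ?_ ?_
              · rw [← a2] at e2; linarith
              · rw [← a2] at e1; linarith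
              · rw [← a2] at e3; linarith
            · have a1 := hj 0 (by decide)
              have a2 : ell 0 z.1 = ell 1 z.1 := a1.2
              refine main (ell 2 z.1) (ell 0 z.1) hpos a1.1 ?_ ?_ ?_
              · rw [← a2] at e2; linarith
              · rw [← a2] at e1; linarith
              · rw [← a2] at e3; linarith
          rcases lt_or_gt_of_ne hx0 with hx | hx
          · rcases le_or_gt (nn z.1) (4 * ρ ^ 2) with hn | hn
            · exact hlow hm hx hn
            · exact ⟨1, Sum.inr (Sum.inr (Sum.inl j)), h2, hF, hj, hpos, hm, hx, hn⟩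
          · exact ⟨1, Sum.inr (Sum.inl (2, j)), h2, hF, hj, hpos, hm, hx⟩
        · have h6 := outer_height hnn1 hm.le
          have hx0 : z.1 2 ≠ 0 := by
            intro h; rw [h] at h6; norm_num at h6
          rcases lt_or_gt_of_ne hx0 with hx | hx
          · exact ⟨1, Sum.inr (Sum.inl (1, j)), h2, hF, hj, hpos, hm, hx⟩
          · exact ⟨1, Sum.inr (Sum.inl (0, j)), h2, hF, hj, hpos, hm, hx⟩
      · -- midpoint of the side
        have h1 := FS_zero hF
        have htt : tt z.1 = 0 := by
          rw [hS.1]
          fin_cases j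
          · change 0 = ell 0 z.1 at hzero
            rw [← hzero]; ring
          · change 0 = ell 1 z.1 at hzero
            rw [← hzero]; ring
          · change 0 = ell 2 z.1 at hzero
            rw [← hzero]; ring
        have hmm : mm z.1 = 0 := by
          rw [htt] at h1
          have : mm z.1 ^ 2 = 0 := by linarith
          simpa using this
        have h6 := outer_height hnn1 hmm.ge
        have hx0 : z.1 2 ≠ 0 := by
          intro h; rw [h] at h6; norm_num at h6
        rcases lt_or_gt_of_ne hx0 with hx | hx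
        · refine ⟨0, Sum.inr (Sum.inl (j, false)), h2, hF, hj, hzero.symm, ?_⟩
          simpa using hx
        · refine ⟨0, Sum.inr (Sum.inl (j, true)), h2, hF, hj, hzero.symm, ?_⟩
          simpa using hx
    · -- kite
      by_cases hO : z.1 ∈ PrismO
      · rcases lt_or_gt_of_ne (mm_ne hF hO hS) with hm | hm
        · by_cases hc : 0 ≤ z.1 2 ∨ 4 * ρ ^ 2 < nn z.1
          · refine ⟨2, Sum.inl (false, k), h2, hF, hk, hO, ?_⟩
            simpa using ⟨hm, hc⟩
          · push Not at hc
            exact hlow hm hc.1 hc.2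
        · refine ⟨2, Sum.inl (true, k), h2, hF, hk, hO, ?_⟩
          simpa using hm
      · -- on the boundary
        have hex : ∃ j, ell j z.1 = 0 := by
          by_contra hcon
          push Not at hcon
          exact hO fun j => lt_of_le_of_ne (hprism j) (Ne.symm (hcon j))
        obtain ⟨j, hj⟩ := hex
        have hjk : j ≠ k := by
          rintro rfl
          have h1 := hk (j + 1) (fin3_ex j)
          have h3 := hprism (j + 1)
          linarith
        have hj2 : j = k + 1 ∨ j = k + 2 := fin3_next j k hjk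
        rcases hj2 with rfl | rfl
        · refine ⟨1, Sum.inl (k, false), h2, hF, hk, ?_, hN4⟩
          simpa using hj
        · refine ⟨1, Sum.inl (k, true), h2, hF, hk, ?_, hN4⟩
          simpa using hj

end Pool.Agent.Tight.H58
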