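import Pool.Agent.Lib.MP_a31e1e_gt.H58.Cov

/-!
# CWDISJ: the descriptions of the cells are mutually exclusive (project TIGHT)
-/

open scoped ContDiff Manifold Topology RealInnerProductSpace
open Set Metric

namespace Pool.Agent.Tight.H58

/-- the cells inside the disc of radius `2ρ` of the floor -/
def ClsF : (n : ℕ) → CI n → Prop
  | 1, Sum.inr (Sum.inr (Sum.inr (Sum.inr ()))) => True
  | 2, Sum.inr () => True
  | _, _ => False

/-- the cells on the circle -/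
def ClsC : (n : ℕ) → CI n → Prop
  | 0, Sum.inr (Sum.inr _) => True
  | 1, Sum.inr (Sum.inr (Sum.inr (Sum.inl _))) => True
  | _, _ => False

/-- low points over the closed disc -/
def LowP (ρ : ℝ) (x : E3) : Prop := nn x ≤ 4 * ρ ^ 2 ∧ |x 2 + 1| < 1 / 8

lemma floor_low (hR : FloorRegStatement) {ρ l : ℝ} (hp : Par ρ l) {b : E2}
    (h : nn (floorP ρ l b).1 < 4 * ρ ^ 2) : |(floorP ρ l b).1 2 + 1| < 1 / 8 := by
  have hρ := hp.hρ
  exact ((hR ρ l hp).1 b (h.le.trans (by nlinarith))).2.2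

lemma one_lt_of_seg {ρ l : ℝ} (hp : Par ρ l) {x : E3} {j : Fin 3} (h : ell j x = 0) :
    ¬ LowP ρ x := by
  intro hl
  have h1 := one_le_nn h
  have h2 := (rho_small hp).1
  have h3 := hl.1
  linarith

/-- the class of a point -/
lemma cls (hR : FloorRegStatement) {ρ l : ℝ} (hp : Par ρ l) :
    ∀ (n : ℕ) (i : CI n) (z : E3 × ℂ), Code ρ l n i z →
      (ClsF n i ∧ nn z.1 < 4 * ρ ^ 2 ∧ LowP ρ z.1) ∨
      (ClsC n i ∧ nn z.1 = 4 * ρ ^ 2 ∧ LowP ρ z.1) ∨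
      (¬ ClsF n i ∧ ¬ ClsC n i ∧ ¬ LowP ρ z.1) := by
  obtain ⟨hρs, hρ0⟩ := rho_small hp
  intro n i z h
  match n, i, h with
  | 0, Sum.inl i, h =>
    refine Or.inr (Or.inr ⟨fun h => h, fun h => h, fun hl => ?_⟩)
    exact onSh_not_low (by linarith [hl.1]) h.2.2.2 hl.2
  | 0, Sum.inr (Sum.inl (j, b)), h =>
    exact Or.inr (Or.inr ⟨fun h => h, fun h => h, one_lt_of_seg hp h.2.2.2.1⟩)
  | 0, Sum.inr (Sum.inr i), h =>
    have h' : z = circ ρ (ang i.castSucc) := h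
    refine Or.inr (Or.inl ⟨trivial, ?_, ?_, ?_⟩)
    · rw [h', nn_circ]
    · rw [h', nn_circ]
    · rw [h']; exact circ_low hp.hρ hp.hρ' _
  | 1, Sum.inl (k, d), h =>
    exact Or.inr (Or.inr ⟨fun h => h, fun h => h, one_lt_of_seg hp h.2.2.2.1⟩)
  | 1, Sum.inr (Sum.inl (i, j)), h =>
    refine Or.inr (Or.inr ⟨fun h => h, fun h => h, fun hl => ?_⟩)
    exact onSh_not_low (by linarith [hl.1]) h.2.2.2.2 hl.2
  | 1, Sum.inr (Sum.inr (Sum.inl j)), h =>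
    refine Or.inr (Or.inr ⟨fun h => h, fun h => h, fun hl => ?_⟩)
    have h1 : 4 * ρ ^ 2 < nn z.1 := h.2.2.2.2.2.2
    linarith [hl.1]
  | 1, Sum.inr (Sum.inr (Sum.inr (Sum.inl i))), h =>
    obtain ⟨θ, -, -, h'⟩ := h
    refine Or.inr (Or.inl ⟨trivial, ?_, ?_, ?_⟩)
    · rw [h', nn_circ]
    · rw [h', nn_circ]
    · rw [h']; exact circ_low hp.hρ hp.hρ' _
  | 1, Sum.inr (Sum.inr (Sum.inr (Sum.inr ()))), h =>
    obtain ⟨h1, t, rfl⟩ := h
    exact Or.inl ⟨trivial, h1, h1.le, floor_low hR hp h1⟩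
  | 2, Sum.inl (o, k), h =>
    refine Or.inr (Or.inr ⟨fun h => h, fun h => h, fun hl => ?_⟩)
    have h5 := h.2.2.2.2
    cases o
    · obtain ⟨h6, h7⟩ : mm z.1 < 0 ∧ (0 ≤ z.1 2 ∨ 4 * ρ ^ 2 < nn z.1) := by simpa using h5
      rcases h7 with h7 | h7
      · have := hl.2
        rw [abs_lt] at this
        linarith
      · linarith [hl.1]
    · have h6 : 0 < mm z.1 := by simpa using h5
      exact outer_not_low (by linarith [hl.1]) h6 hl.2
  | 2, Sum.inr (), h =>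
    obtain ⟨h1, u, t, -, -, rfl⟩ := h
    exact Or.inl ⟨trivial, h1, h1.le, floor_low hR hp h1⟩
  | n + 3, e, _ => exact (e : Empty).elim

lemma onSh_floor {i : Fin 3} {x : E3} (h : OnSh i x) (hm : mm x < 0) (hx : x 2 < 0) :
    False := by
  fin_cases i
  · exact absurd h.1 (not_lt.2 hm.le)
  · exact absurd h.1 (not_lt.2 hm.le)
  · exact absurd h.2 (not_lt.2 hx.le)

lemma two_zero {k : Fin 3} {x : E3} (h1 : ell (k + 1) x = 0) (h2 : ell (k + 2) x = 0)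
    (hn : nn x < 4) : False := by
  have e1 := nn_eq' x
  have e2 := ell_sum x
  fin_cases k
  · change ell 1 x = 0 at h1
    change ell 2 x = 0 at h2
    rw [h1, h2] at e1 e2
    nlinarith
  · change ell 2 x = 0 at h1
    change ell 0 x = 0 at h2
    rw [h1, h2] at e1 e2
    nlinarith
  · change ell 0 x = 0 at h1
    change ell 1 x = 0 at h2
    rw [h1, h2] at e1 e2
    nlinarith

/-- uniqueness on the circle -/
lemma disjC {ρ l : ℝ} (hp : Par ρ l) :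
    ∀ (n : ℕ) (i : CI n) (m : ℕ) (j : CI m) (z : E3 × ℂ), ClsC n i → ClsC m j →
      Code ρ l n i z → Code ρ l m j z → (⟨n, i⟩ : Σ n, CI n) = ⟨m, j⟩ := by
  have hρ := hp.hρ
  have hinj : ∀ i j : Fin 5, circ ρ (ang i.castSucc) = circ ρ (ang j.castSucc) → i = j := by
    intro i j h
    have := circ_inj hρ (ang_nonneg _) (ang_castSucc_lt _) (ang_nonneg _) (ang_castSucc_lt _) h
    exact Fin.castSucc_injective _ (ang_strictMono.injective this)
  have hbetw : ∀ (i j : Fin 5) (θ : ℝ), ang j.castSucc < θ → θ < ang j.succ →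
      circ ρ (ang i.castSucc) = circ ρ θ → False := by
    intro i j θ h1 h2 h
    have h3 := circ_inj hρ (ang_nonneg _) (ang_castSucc_lt _) ((ang_nonneg _).trans h1.le)
      (h2.trans_le (ang_le _)) h
    rw [← h3] at h1 h2
    have h4 := ang_strictMono.lt_iff_lt.1 h1
    have h5 := ang_strictMono.lt_iff_lt.1 h2
    rw [Fin.lt_def] at h4 h5
    simp at h4 h5
    omega
  have hint : ∀ (i j : Fin 5) (θ θ' : ℝ), ang i.castSucc < θ → θ < ang i.succ →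
      ang j.castSucc < θ' → θ' < ang j.succ → circ ρ θ = circ ρ θ' → i = j := by
    intro i j θ θ' h1 h2 h3 h4 h
    have h5 := circ_inj hρ ((ang_nonneg _).trans h1.le) (h2.trans_le (ang_le _))
      ((ang_nonneg _).trans h3.le) (h4.trans_le (ang_le _)) h
    rw [← h5] at h3 h4
    have h6 := ang_strictMono.lt_iff_lt.1 (h1.trans h4)
    have h7 := ang_strictMono.lt_iff_lt.1 (h3.trans h2)
    rw [Fin.lt_def] at h6 h7
    simp at h6 h7
    exact Fin.ext (by omega)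
  intro n i m j z hi hj h h'
  match n, i, hi, h, m, j, hj, h' with
  | 0, Sum.inr (Sum.inr i), _, h, 0, Sum.inr (Sum.inr j), _, h' =>
    have e1 : z = circ ρ (ang i.castSucc) := h
    have e2 : z = circ ρ (ang j.castSucc) := h'
    rw [hinj i j (e1.symm.trans e2)]
  | 0, Sum.inr (Sum.inr i), _, h, 1, Sum.inr (Sum.inr (Sum.inr (Sum.inl j))), _, h' =>
    have e1 : z = circ ρ (ang i.castSucc) := h
    obtain ⟨θ, h1, h2, e2⟩ := h'
    exact (hbetw i j θ h1 h2 (e1.symm.trans e2)).elim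
  | 1, Sum.inr (Sum.inr (Sum.inr (Sum.inl i))), _, h, 0, Sum.inr (Sum.inr j), _, h' =>
    have e1 : z = circ ρ (ang j.castSucc) := h'
    obtain ⟨θ, h1, h2, e2⟩ := h
    exact (hbetw j i θ h1 h2 (e1.symm.trans e2)).elim
  | 1, Sum.inr (Sum.inr (Sum.inr (Sum.inl i))), _, h, 1,
      Sum.inr (Sum.inr (Sum.inr (Sum.inl j))), _, h' =>
    obtain ⟨θ, h1, h2, e2⟩ := h
    obtain ⟨θ', h3, h4, e3⟩ := h'
    rw [hint i j θ θ' h1 h2 h3 h4 (e2.symm.trans e3)]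

/-- uniqueness inside the disc -/
lemma disjF (hI : FloorInjStatement) {ρ l : ℝ} (hp : Par ρ l) :
    ∀ (n : ℕ) (i : CI n) (m : ℕ) (j : CI m) (z : E3 × ℂ), ClsF n i → ClsF m j →
      Code ρ l n i z → Code ρ l m j z → (⟨n, i⟩ : Σ n, CI n) = ⟨m, j⟩ := by
  have hbad : ∀ t u t' : ℝ, 0 < u → u < Real.pi →
      floorP ρ l !₂[0, t] = floorP ρ l !₂[u, t'] → False := by
    intro t u t' h1 h2 h
    obtain ⟨k, hk, -⟩ := (hI ρ l hp).1 _ _ h
    have hk' : u = k * Real.pi := by simpa using hk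
    have hpi := Real.pi_pos
    rw [hk'] at h1 h2
    have h3 : (0 : ℝ) < k := by
      by_contra hcon
      push Not at hcon
      nlinarith
    have h4 : (k : ℝ) < 1 := by
      by_contra hcon
      push Not at hcon
      nlinarith
    have h5 : (0 : ℤ) < k := by exact_mod_cast h3
    have h6 : k < (1 : ℤ) := by exact_mod_cast h4
    omega
  intro n i m j z hi hj h h'
  match n, i, hi, h, m, j, hj, h' with
  | 1, Sum.inr (Sum.inr (Sum.inr (Sum.inr ()))), _, h, 1,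
      Sum.inr (Sum.inr (Sum.inr (Sum.inr ()))), _, h' => rfl
  | 1, Sum.inr (Sum.inr (Sum.inr (Sum.inr ()))), _, h, 2, Sum.inr (), _, h' =>
    obtain ⟨-, t, e1⟩ := h
    obtain ⟨-, u, t', h1, h2, e2⟩ := h'
    exact (hbad t u t' h1 h2 (e1.symm.trans e2)).elim
  | 2, Sum.inr (), _, h, 1, Sum.inr (Sum.inr (Sum.inr (Sum.inr ()))), _, h' =>
    obtain ⟨-, t, e1⟩ := h'
    obtain ⟨-, u, t', h1, h2, e2⟩ := h
    exact (hbad t u t' h1 h2 (e1.symm.trans e2)).elim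
  | 2, Sum.inr (), _, h, 2, Sum.inr (), _, h' => rfl

/-- uniqueness on the rest -/
lemma disjS {ρ l : ℝ} :
    ∀ (n : ℕ) (i : CI n) (m : ℕ) (j : CI m) (z : E3 × ℂ), ¬ ClsF n i → ¬ ClsC n i →
      ¬ ClsF m j → ¬ ClsC m j →
      Code ρ l n i z → Code ρ l m j z → (⟨n, i⟩ : Σ n, CI n) = ⟨m, j⟩ := by
  intro n i m j z hi hi' hj hj' h h'
  match n, i, hi, hi', h, m, j, hj, hj', h' with
  | 0, Sum.inr (Sum.inr _), _, hi', _, _, _, _, _, _ => exact (hi' trivial).elim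
  | 1, Sum.inr (Sum.inr (Sum.inr (Sum.inl _))), _, hi', _, _, _, _, _, _ =>
    exact (hi' trivial).elim
  | 1, Sum.inr (Sum.inr (Sum.inr (Sum.inr ()))), hi, _, _, _, _, _, _, _ =>
    exact (hi trivial).elim
  | 2, Sum.inr (), hi, _, _, _, _, _, _, _ => exact (hi trivial).elim
  | n + 3, e, _, _, _, _, _, _, _, _ => exact (e : Empty).elim
  | _, _, _, _, _, 0, Sum.inr (Sum.inr _), _, hj', _ => exact (hj' trivial).elim
  | _, _, _, _, _, 1, Sum.inr (Sum.inr (Sum.inr (Sum.inl _))), _, hj', _ =>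
    exact (hj' trivial).elim
  | _, _, _, _, _, 1, Sum.inr (Sum.inr (Sum.inr (Sum.inr ()))), hj, _, _ =>
    exact (hj trivial).elim
  | _, _, _, _, _, 2, Sum.inr (), hj, _, _ => exact (hj trivial).elim
  | _, _, _, _, _, m + 3, e, _, _, _ => exact (e : Empty).elim
  -- centre
  | 0, Sum.inl i, _, _, h, 0, Sum.inl j, _, _, h' => rw [onSh_onSh h.2.2.2 h'.2.2.2]
  | 0, Sum.inl i, _, _, h, 0, Sum.inr (Sum.inl (j, b)), _, _, h' =>
    exact (zero_seg h.2.2.1 h'.2.2.1).elim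
  | 0, Sum.inl i, _, _, h, 1, Sum.inl (k, d), _, _, h' => exact (zero_kite h.2.2.1 h'.2.2.1).elim
  | 0, Sum.inl i, _, _, h, 1, Sum.inr (Sum.inl (i', j)), _, _, h' =>
    exact (zero_seg h.2.2.1 h'.2.2.1).elim
  | 0, Sum.inl i, _, _, h, 1, Sum.inr (Sum.inr (Sum.inl j)), _, _, h' =>
    exact (zero_seg h.2.2.1 h'.2.2.1).elim
  | 0, Sum.inl i, _, _, h, 2, Sum.inl (o, k), _, _, h' => exact (zero_kite h.2.2.1 h'.2.2.1).elim
  -- vertices on the sides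
  | 0, Sum.inr (Sum.inl (j, b)), _, _, h, 0, Sum.inl i, _, _, h' =>
    exact (zero_seg h'.2.2.1 h.2.2.1).elim
  | 0, Sum.inr (Sum.inl (j, b)), _, _, h, 0, Sum.inr (Sum.inl (j', b')), _, _, h' =>
    obtain rfl := seg_seg h.2.2.1 h'.2.2.1
    have h1 := h.2.2.2.2
    have h2 := h'.2.2.2.2
    cases b <;> cases b' <;> first | rfl | (exfalso; simp at h1 h2; linarith)
  | 0, Sum.inr (Sum.inl (j, b)), _, _, h, 1, Sum.inl (k, d), _, _, h' =>
    exact (seg_kite h.2.2.1 h'.2.2.1).elim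
  | 0, Sum.inr (Sum.inl (j, b)), _, _, h, 1, Sum.inr (Sum.inl (i', j')), _, _, h' =>
    obtain rfl := seg_seg h.2.2.1 h'.2.2.1
    exact (h'.2.2.2.1.ne' h.2.2.2.1).elim
  | 0, Sum.inr (Sum.inl (j, b)), _, _, h, 1, Sum.inr (Sum.inr (Sum.inl j')), _, _, h' =>
    obtain rfl := seg_seg h.2.2.1 h'.2.2.1
    exact (h'.2.2.2.1.ne' h.2.2.2.1).elim
  | 0, Sum.inr (Sum.inl (j, b)), _, _, h, 2, Sum.inl (o, k), _, _, h' =>
    exact (seg_kite h.2.2.1 h'.2.2.1).elim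
  -- arcs
  | 1, Sum.inl (k, d), _, _, h, 0, Sum.inl i, _, _, h' => exact (zero_kite h'.2.2.1 h.2.2.1).elim
  | 1, Sum.inl (k, d), _, _, h, 0, Sum.inr (Sum.inl (j', b')), _, _, h' =>
    exact (seg_kite h'.2.2.1 h.2.2.1).elim
  | 1, Sum.inl (k, d), _, _, h, 1, Sum.inl (k', d'), _, _, h' =>
    obtain rfl := kite_kite h.2.2.1 h'.2.2.1
    have h1 := h.2.2.2.1
    have h2 := h'.2.2.2.1
    have h3 := h.2.2.2.2
    cases d <;> cases d' <;> simp at h1 h2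
    · rfl
    · exact (two_zero h1 h2 h3).elim
    · exact (two_zero h2 h1 h3).elim
    · rfl
  | 1, Sum.inl (k, d), _, _, h, 1, Sum.inr (Sum.inl (i', j')), _, _, h' =>
    exact (seg_kite h'.2.2.1 h.2.2.1).elim
  | 1, Sum.inl (k, d), _, _, h, 1, Sum.inr (Sum.inr (Sum.inl j')), _, _, h' =>
    exact (seg_kite h'.2.2.1 h.2.2.1).elim
  | 1, Sum.inl (k, d), _, _, h, 2, Sum.inl (o, k'), _, _, h' =>
    exact ((h'.2.2.2.1 _).ne' h.2.2.2.1).elim
  -- segments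
  | 1, Sum.inr (Sum.inl (i, j)), _, _, h, 0, Sum.inl i', _, _, h' =>
    exact (zero_seg h'.2.2.1 h.2.2.1).elim
  | 1, Sum.inr (Sum.inl (i, j)), _, _, h, 0, Sum.inr (Sum.inl (j', b')), _, _, h' =>
    obtain rfl := seg_seg h.2.2.1 h'.2.2.1
    exact (h.2.2.2.1.ne' h'.2.2.2.1).elim
  | 1, Sum.inr (Sum.inl (i, j)), _, _, h, 1, Sum.inl (k', d'), _, _, h' =>
    exact (seg_kite h.2.2.1 h'.2.2.1).elim
  | 1, Sum.inr (Sum.inl (i, j)), _, _, h, 1, Sum.inr (Sum.inl (i', j')), _, _, h' =>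
    rw [seg_seg h.2.2.1 h'.2.2.1, onSh_onSh h.2.2.2.2 h'.2.2.2.2]
  | 1, Sum.inr (Sum.inl (i, j)), _, _, h, 1, Sum.inr (Sum.inr (Sum.inl j')), _, _, h' =>
    exact (onSh_floor h.2.2.2.2 h'.2.2.2.2.1 h'.2.2.2.2.2.1).elim
  | 1, Sum.inr (Sum.inl (i, j)), _, _, h, 2, Sum.inl (o, k'), _, _, h' =>
    exact (seg_kite h.2.2.1 h'.2.2.1).elim
  -- segments of the floor
  | 1, Sum.inr (Sum.inr (Sum.inl j)), _, _, h, 0, Sum.inl i', _, _, h' =>
    exact (zero_seg h'.2.2.1 h.2.2.1).elim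
  | 1, Sum.inr (Sum.inr (Sum.inl j)), _, _, h, 0, Sum.inr (Sum.inl (j', b')), _, _, h' =>
    obtain rfl := seg_seg h.2.2.1 h'.2.2.1
    exact (h.2.2.2.1.ne' h'.2.2.2.1).elim
  | 1, Sum.inr (Sum.inr (Sum.inl j)), _, _, h, 1, Sum.inl (k', d'), _, _, h' =>
    exact (seg_kite h.2.2.1 h'.2.2.1).elim
  | 1, Sum.inr (Sum.inr (Sum.inl j)), _, _, h, 1, Sum.inr (Sum.inl (i', j')), _, _, h' =>
    exact (onSh_floor h'.2.2.2.2 h.2.2.2.2.1 h.2.2.2.2.2.1).elim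
  | 1, Sum.inr (Sum.inr (Sum.inl j)), _, _, h, 1, Sum.inr (Sum.inr (Sum.inl j')), _, _, h' =>
    rw [seg_seg h.2.2.1 h'.2.2.1]
  | 1, Sum.inr (Sum.inr (Sum.inl j)), _, _, h, 2, Sum.inl (o, k'), _, _, h' =>
    exact (seg_kite h.2.2.1 h'.2.2.1).elim
  -- wedges
  | 2, Sum.inl (o, k), _, _, h, 0, Sum.inl i', _, _, h' =>
    exact (zero_kite h'.2.2.1 h.2.2.1).elim
  | 2, Sum.inl (o, k), _, _, h, 0, Sum.inr (Sum.inl (j', b')), _, _, h' =>
    exact (seg_kite h'.2.2.1 h.2.2.1).elim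
  | 2, Sum.inl (o, k), _, _, h, 1, Sum.inl (k', d'), _, _, h' =>
    exact ((h.2.2.2.1 _).ne' h'.2.2.2.1).elim
  | 2, Sum.inl (o, k), _, _, h, 1, Sum.inr (Sum.inl (i', j')), _, _, h' =>
    exact (seg_kite h'.2.2.1 h.2.2.1).elim
  | 2, Sum.inl (o, k), _, _, h, 1, Sum.inr (Sum.inr (Sum.inl j')), _, _, h' =>
    exact (seg_kite h'.2.2.1 h.2.2.1).elim
  | 2, Sum.inl (o, k), _, _, h, 2, Sum.inl (o', k'), _, _, h' =>
    obtain rfl := kite_kite h.2.2.1 h'.2.2.1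
    have h1 := h.2.2.2.2
    have h2 := h'.2.2.2.2
    cases o <;> cases o' <;> simp at h1 h2
    · rfl
    · exfalso; linarith [h1.1]
    · exfalso; linarith [h2.1]
    · rfl

theorem cwDisj (hR : FloorRegStatement) (hI : FloorInjStatement) : CWDisjStatement := by
  intro ρ l hp n i m j z _ h h'
  rcases cls hR hp n i z h with ⟨a1, a2, a3⟩ | ⟨a1, a2, a3⟩ | ⟨a1, a2, a3⟩ <;>
    rcases cls hR hp m j z h' with ⟨b1, b2, b3⟩ | ⟨b1, b2, b3⟩ | ⟨b1, b2, b3⟩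
  · exact disjF hI hp n i m j z a1 b1 h h'
  · exact (a2.ne b2).elim
  · exact (b3 a3).elim
  · exact (b2.ne a2).elim
  · exact disjC hp n i m j z a1 b1 h h'
  · exact (b3 a3).elim
  · exact (a3 b3).elim
  · exact (a3 b3).elim
  · exact disjS n i m j z a1 a2 b1 b2 h h'

end Pool.Agent.Tight.H58
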