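import Pool.Agent.Lib.MP_a31e1e_gt.Interfaces

/-!
# Elementary facts on `ell`, `nn`, `tt`, `mm` (project TIGHT)
-/

open scoped ContDiff Manifold Topology RealInnerProductSpace
open Set Metric

namespace Pool.Agent.Tight.H58

lemma cont_coord (i : Fin 3) : Continuous fun x : E3 => x i := by fun_prop

lemma cont_nn : Continuous nn := by unfold nn; fun_prop
lemma cont_cc : Continuous cc := by unfold cc; fun_prop
lemma cont_tt : Continuous tt := by
  unfold tt
  have := cont_nn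
  have := cont_cc
  fun_prop
lemma cont_mm : Continuous mm := by
  unfold mm
  have := cont_nn
  fun_prop
lemma cont_FS : Continuous FS := by
  unfold FS
  have := cont_mm
  have := cont_tt
  fun_prop

lemma FS_zero {x : E3} (h : FS x = 0) : mm x ^ 2 = 16 * tt x := by
  unfold FS at h; linarith

lemma ell_sum (x : E3) : ell 0 x + ell 1 x + ell 2 x = 3 := by
  simp only [ell]; ring

lemma nn_eq (x : E3) : nn x = (ell 1 x - ell 2 x) ^ 2 / 3 + (1 - ell 0 x) ^ 2 := by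
  have h3 : √3 ^ 2 = 3 := Real.sq_sqrt (by norm_num)
  simp only [ell, nn]
  have : ((1 + (x 1 + √3 * x 0) / 2) - (1 + (x 1 - √3 * x 0) / 2)) = √3 * x 0 := by ring
  rw [this, mul_pow, h3]
  ring

lemma nn_eq' (x : E3) : nn x = 2 / 3 * (ell 0 x ^ 2 + ell 1 x ^ 2 + ell 2 x ^ 2) - 2 := by
  rw [nn_eq]
  have h := ell_sum x
  have h2 : ell 2 x = 3 - ell 0 x - ell 1 x := by linarith
  rw [h2]
  ring

lemma mm_def (x : E3) : mm x = x 2 ^ 2 + 3 * nn x - 9 := rfl

lemma nn_nonneg (x : E3) : 0 ≤ nn x := by unfold nn; positivity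

/-- `C² ≤ N³` -/
lemma cc_sq (x : E3) : cc x ^ 2 ≤ nn x ^ 3 := by
  have : nn x ^ 3 - cc x ^ 2 = (x 0 ^ 3 - 3 * x 0 * x 1 ^ 2) ^ 2 := by
    unfold nn cc; ring
  nlinarith [sq_nonneg (x 0 ^ 3 - 3 * x 0 * x 1 ^ 2)]

/-- near the axis, a point of the inner sheet below is near height `-1` -/
lemma inner_low {x : E3} (h : FS x = 0) (hN : nn x ≤ 1 / 1000) (hm : mm x ≤ 0)
    (h2 : x 2 ≤ 0) : |x 2 + 1| < 1 / 8 := by
  have h0 := nn_nonneg x
  have hC := cc_sq x
  have hC1 : |cc x| ≤ 1 / 1000 := by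
    rw [abs_le]
    have : nn x ^ 3 ≤ (1 / 1000) ^ 3 := pow_le_pow_left₀ h0 hN 3
    have hC2 : cc x ^ 2 ≤ (1 / 1000) ^ 2 := by
      refine hC.trans (this.trans ?_)
      norm_num
    constructor <;> nlinarith [sq_nonneg (cc x - 1 / 1000), sq_nonneg (cc x + 1 / 1000)]
  rw [abs_le] at hC1
  have ht := FS_zero h
  have htt : tt x = 4 - 3 * nn x - cc x := rfl
  have hm1 : mm x ^ 2 ≤ 64.1 := by
    rw [ht, htt]; nlinarith [hC1.1, hC1.2]
  have hm2 : 63.9 ≤ mm x ^ 2 := by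
    rw [ht, htt]; nlinarith [hC1.1, hC1.2]
  have hm3 : mm x ≤ -7.9 := by
    nlinarith
  have hm4 : -8.1 ≤ mm x := by
    nlinarith
  have hx : x 2 ^ 2 = mm x - 3 * nn x + 9 := by rw [mm_def]; ring
  rw [abs_lt]
  constructor
  · nlinarith
  · nlinarith

lemma outer_height {x : E3} (hN : nn x ≤ 1) (hm : 0 ≤ mm x) : 6 ≤ x 2 ^ 2 := by
  rw [mm_def] at hm
  linarith

end Pool.Agent.Tight.H58
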