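import Pool.Agent.Lib.MP_a31e1e_gt.H58.Mcomp
import Pool.Agent.Lib.MP_a31e1e_gt.CWDefs

/-!
# Positions in the triangle and on the sheets (project TIGHT, modules CWCOV and CWDISJ)
-/

open scoped ContDiff Manifold Topology RealInnerProductSpace
open Set Metric

namespace Pool.Agent.Tight.H58

/-! ### positions -/

lemma seg_seg {j j' : Fin 3} {x : E3} (h : InSeg j x) (h' : InSeg j' x) : j = j' := by
  by_contra hne
  have h1 := (h j' (Ne.symm hne)).1
  have h2 := (h' j hne).1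
  linarith

lemma kite_kite {k k' : Fin 3} {x : E3} (h : InKite k x) (h' : InKite k' x) : k = k' := by
  by_contra hne
  have h1 := h k' (Ne.symm hne)
  have h2 := h' k hne
  linarith

lemma fin3_aux : ∀ i j : Fin 3, i ≠ j → i + (i - j) ≠ i := by decide

lemma fin3_ex : ∀ j : Fin 3, j + 1 ≠ j := by decide

lemma seg_kite {j k : Fin 3} {x : E3} (h : InSeg j x) (h' : InKite k x) : False := by
  by_cases hjk : k = j
  · subst hjk
    have h1 := (h (k + 1) (fin3_ex k)).1
    have h2 := h' (k + 1) (fin3_ex k)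
    linarith
  · have h1 := (h k hjk).2
    have h2 := h' (k + (k - j)) (fin3_aux k j hjk)
    linarith

lemma ell_of_zero {x : E3} (h : nn x = 0) (j : Fin 3) : ell j x = 1 := by
  have h1 := nn_eq x
  have h2 := ell_sum x
  rw [h] at h1
  have q1 := sq_nonneg (ell 1 x - ell 2 x)
  have q2 := sq_nonneg (1 - ell 0 x)
  have h3 : (ell 1 x - ell 2 x) ^ 2 = 0 := by linarith
  have h4 : (1 - ell 0 x) ^ 2 = 0 := by linarith
  have h5 : ell 1 x - ell 2 x = 0 := by simpa using h3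
  have h6 : 1 - ell 0 x = 0 := by simpa using h4
  fin_cases j
  · show ell 0 x = 1
    linarith
  · show ell 1 x = 1
    linarith
  · show ell 2 x = 1
    linarith

lemma zero_seg {j : Fin 3} {x : E3} (h0 : nn x = 0) (h : InSeg j x) : False := by
  have h1 := (h (j + 1) (fin3_ex j)).1
  rw [ell_of_zero h0, ell_of_zero h0] at h1
  exact lt_irrefl _ h1

lemma zero_kite {k : Fin 3} {x : E3} (h0 : nn x = 0) (h : InKite k x) : False := by
  have h1 := h (k + 1) (fin3_ex k)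
  rw [ell_of_zero h0, ell_of_zero h0] at h1
  exact lt_irrefl _ h1

/-- on the sides of the triangle `nn ≥ 1` -/
lemma one_le_nn {x : E3} {j : Fin 3} (h : ell j x = 0) : 1 ≤ nn x := by
  have h1 := nn_eq' x
  have h2 := ell_sum x
  fin_cases j
  · change ell 0 x = 0 at h
    rw [h] at h1 h2
    nlinarith [sq_nonneg (ell 1 x - ell 2 x)]
  · change ell 1 x = 0 at h
    rw [h] at h1 h2
    nlinarith [sq_nonneg (ell 0 x - ell 2 x)]
  · change ell 2 x = 0 at h
    rw [h] at h1 h2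
    nlinarith [sq_nonneg (ell 0 x - ell 1 x)]

lemma fin3_cases : ∀ a b c i : Fin 3, a ≠ b → b ≠ c → a ≠ c → i ≠ c → i = a ∨ i = b := by
  decide

/-- the trichotomy of positions -/
lemma position (x : E3) : nn x = 0 ∨ (∃ j, InSeg j x) ∨ ∃ k, InKite k x := by
  have hs := ell_sum x
  have key : ∀ a b c : Fin 3, a ≠ b → b ≠ c → a ≠ c → a + (a - c) = b → b + (b - c) = a →
      ell a x = ell b x → ell c x < ell a x → InSeg c x := by
    intro a b c hab hbc hac e1 e2 h1 h2 i hi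
    have : i = a ∨ i = b := fin3_cases a b c i hab hbc hac hi
    rcases this with rfl | rfl
    · exact ⟨h2, by rw [e1]; exact h1⟩
    · exact ⟨by rw [← h1]; exact h2, by rw [e2]; exact h1.symm⟩
  have key2 : ∀ a b c : Fin 3, a ≠ b → b ≠ c → a ≠ c →
      ell b x < ell a x → ell c x < ell a x → InKite a x := by
    intro a b c hab hbc hac h1 h2 i hi
    have : i = b ∨ i = c := fin3_cases b c a i hbc (Ne.symm hac) (Ne.symm hab) hi
    rcases this with rfl | rfl
    · exact h1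
    · exact h2
  rcases lt_trichotomy (ell 0 x) (ell 1 x) with h01 | h01 | h01
  · rcases lt_trichotomy (ell 1 x) (ell 2 x) with h12 | h12 | h12
    · exact Or.inr (Or.inr ⟨2, key2 2 0 1 (by decide) (by decide) (by decide)
        (h01.trans h12) h12⟩)
    · exact Or.inr (Or.inl ⟨0, key 1 2 0 (by decide) (by decide) (by decide) (by decide)
        (by decide) h12 h01⟩)
    · exact Or.inr (Or.inr ⟨1, key2 1 0 2 (by decide) (by decide) (by decide) h01 h12⟩)
  · rcases lt_trichotomy (ell 1 x) (ell 2 x) with h12 | h12 | h12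
    · exact Or.inr (Or.inr ⟨2, key2 2 0 1 (by decide) (by decide) (by decide)
        (h01 ▸ h12) h12⟩)
    · left
      have h0 : ell 0 x = 1 := by linarith
      rw [nn_eq, h12, h0]
      norm_num
    · exact Or.inr (Or.inl ⟨2, key 0 1 2 (by decide) (by decide) (by decide) (by decide)
        (by decide) h01 (h01 ▸ h12)⟩)
  · rcases lt_trichotomy (ell 0 x) (ell 2 x) with h02 | h02 | h02
    · exact Or.inr (Or.inr ⟨2, key2 2 0 1 (by decide) (by decide) (by decide) h02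
        (h01.trans h02)⟩)
    · exact Or.inr (Or.inl ⟨1, key 0 2 1 (by decide) (by decide) (by decide) (by decide)
        (by decide) h02 h01⟩)
    · exact Or.inr (Or.inr ⟨0, key2 0 1 2 (by decide) (by decide) (by decide) h01 h02⟩)

lemma onSh_onSh {i i' : Fin 3} {x : E3} (h : OnSh i x) (h' : OnSh i' x) : i = i' := by
  fin_cases i <;> fin_cases i' <;> simp only [OnSh] at h h' <;>
    first
    | rfl
    | (exfalso; obtain ⟨h1, h2⟩ := h; obtain ⟨h3, h4⟩ := h'; linarith)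

/-! ### heights -/

lemma outer_not_low {x : E3} (hN : nn x ≤ 1) (hm : 0 < mm x) : ¬ |x 2 + 1| < 1 / 8 := by
  intro h
  have h1 := outer_height hN hm.le
  rw [abs_lt] at h
  nlinarith

lemma onSh_not_low {i : Fin 3} {x : E3} (hN : nn x ≤ 1) (h : OnSh i x) :
    ¬ |x 2 + 1| < 1 / 8 := by
  fin_cases i
  · exact outer_not_low hN h.1
  · exact outer_not_low hN h.1
  · intro h1
    have h2 : 0 < x 2 := h.2
    rw [abs_lt] at h1
    linarith

lemma low_facts {x : E3} (hN : nn x ≤ 1 / 1000) :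
    3.99 ≤ tt x ∧ tt x ≤ 4.01 ∧ 0.9 ≤ qq x ∧ qq x ≤ 1.1 := by
  have h0 := nn_nonneg x
  have hC := cc_sq x
  have hC1 : |cc x| ≤ 1 / 1000 := by
    rw [abs_le]
    have : nn x ^ 3 ≤ (1 / 1000) ^ 3 := pow_le_pow_left₀ h0 hN 3
    have hC2 : cc x ^ 2 ≤ (1 / 1000) ^ 2 := by
      refine hC.trans (this.trans ?_)
      norm_num
    constructor <;> nlinarith [sq_nonneg (cc x - 1 / 1000), sq_nonneg (cc x + 1 / 1000)]
  rw [abs_le] at hC1
  have htt : tt x = 4 - 3 * nn x - cc x := rfl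
  have h1 : 3.99 ≤ tt x := by rw [htt]; linarith [hC1.1, hC1.2]
  have h2 : tt x ≤ 4.01 := by rw [htt]; linarith [hC1.1, hC1.2]
  have h3 : √(tt x) ^ 2 = tt x := Real.sq_sqrt (by linarith)
  have h4 : 0 ≤ √(tt x) := Real.sqrt_nonneg _
  have h5 : √(tt x) ≤ 2.01 := by nlinarith
  have h6 : 1.99 ≤ √(tt x) := by nlinarith
  refine ⟨h1, h2, ?_, ?_⟩
  · unfold qq; linarith
  · unfold qq; linarith

/-- the floor of `Sigma` near the axis -/
lemma hS_floor {x : E3} (hN : nn x ≤ 1 / 1000) (h : x 2 = hS x) :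
    FS x = 0 ∧ mm x < 0 ∧ x 2 < 0 ∧ |x 2 + 1| < 1 / 8 := by
  obtain ⟨h1, h2, h3, h4⟩ := low_facts hN
  have h5 : x 2 ^ 2 = qq x := by
    rw [h]; unfold hS; rw [neg_sq, Real.sq_sqrt (by linarith)]
  have h6 : mm x = -4 * √(tt x) := by
    rw [mm_def, h5]; unfold qq; ring
  have h7 : FS x = 0 := by
    unfold FS; rw [h6, mul_pow, Real.sq_sqrt (by linarith)]; ring
  have h8 : 0 < √(tt x) := Real.sqrt_pos.2 (by linarith)
  have h9 : x 2 < 0 := by
    rw [h]; unfold hS
    have : 0 < √(qq x) := Real.sqrt_pos.2 (by linarith)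
    linarith
  have h10 : mm x < 0 := by rw [h6]; linarith
  exact ⟨h7, h10, h9, inner_low h7 hN h10.le h9.le⟩

lemma floor_hS {x : E3} (h : FS x = 0) (hm : mm x ≤ 0) (h2 : x 2 ≤ 0) : x 2 = hS x := by
  have h1 := FS_zero h
  have ht : 0 ≤ tt x := by nlinarith [sq_nonneg (mm x)]
  have h3 : √(tt x) = -mm x / 4 := by
    rw [Real.sqrt_eq_iff_mul_self_eq ht (by linarith)]
    nlinarith
  have h4 : qq x = x 2 ^ 2 := by
    unfold qq; rw [h3, mm_def]; ring
  unfold hS
  rw [h4, Real.sqrt_sq_eq_abs, abs_of_nonpos h2]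
  ring

lemma mm_ne {x : E3} (h : FS x = 0) (hx : x ∈ PrismO) (hS : SigRegStatement) : mm x ≠ 0 := by
  intro h0
  have h1 := FS_zero h
  have h2 := hS.1 x
  rw [h0, h2] at h1
  have := mul_pos (mul_pos (hx 0) (hx 1)) (hx 2)
  nlinarith

/-! ### the circle -/

lemma circ_snd (ρ θ : ℝ) : (circ ρ θ).2 = 0 := rfl

lemma circ_0 (ρ θ : ℝ) : (circ ρ θ).1 0 = 2 * ρ * Real.cos θ := by
  simp [circ, onSheet, lift, pl]

lemma circ_1 (ρ θ : ℝ) : (circ ρ θ).1 1 = 2 * ρ * Real.sin θ := by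
  simp [circ, onSheet, lift, pl]

lemma nn_circ (ρ θ : ℝ) : nn (circ ρ θ).1 = 4 * ρ ^ 2 := by
  unfold nn
  rw [circ_0, circ_1]
  have := Real.sin_sq_add_cos_sq θ
  nlinarith

lemma qq_congr {x y : E3} (h0 : x 0 = y 0) (h1 : x 1 = y 1) : qq x = qq y := by
  unfold qq tt nn cc
  rw [h0, h1]

lemma circ_2 (ρ θ : ℝ) : (circ ρ θ).1 2 = hS (circ ρ θ).1 := by
  have : (circ ρ θ).1 2 = -√(qq (pl (2 * ρ * Real.cos θ) (2 * ρ * Real.sin θ))) := by
    simp [circ, onSheet, lift, sheet]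
  rw [this]
  unfold hS
  rw [qq_congr (x := (circ ρ θ).1) (y := pl (2 * ρ * Real.cos θ) (2 * ρ * Real.sin θ))]
  · rw [circ_0]; simp [pl]
  · rw [circ_1]; simp [pl]

lemma circ_low {ρ : ℝ} (hρ : 0 < ρ) (hρ' : ρ ≤ 1 / 100) (θ : ℝ) :
    |(circ ρ θ).1 2 + 1| < 1 / 8 := by
  refine (hS_floor ?_ (circ_2 ρ θ)).2.2.2
  rw [nn_circ]
  nlinarith

lemma e3_ext {x y : E3} (h0 : x 0 = y 0) (h1 : x 1 = y 1) (h2 : x 2 = y 2) : x = y := by
  ext i
  fin_cases i
  · exact h0
  · exact h1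
  · exact h2

/-- points of height `hS` over the circle -/
lemma exists_circ {ρ : ℝ} (hρ : 0 < ρ) {x : E3} (hN : nn x = 4 * ρ ^ 2) (h2 : x 2 = hS x) :
    ∃ θ, 0 ≤ θ ∧ θ < 2 * Real.pi ∧ ((x, 0) : E3 × ℂ) = circ ρ θ := by
  have hpi := Real.pi_pos
  set z : ℂ := ⟨x 0, x 1⟩ with hz
  have hnorm : ‖z‖ = 2 * ρ := by
    rw [Complex.norm_def, Complex.normSq_mk]
    have : x 0 * x 0 + x 1 * x 1 = (2 * ρ) ^ 2 := by
      have : nn x = x 0 * x 0 + x 1 * x 1 := by unfold nn; ring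
      rw [← this, hN]; ring
    rw [this]
    exact Real.sqrt_sq (by linarith)
  have h0 : x 0 = 2 * ρ * Real.cos z.arg := by
    have := Complex.norm_mul_cos_arg z
    rw [hnorm] at this
    exact this.symm
  have h1 : x 1 = 2 * ρ * Real.sin z.arg := by
    have := Complex.norm_mul_sin_arg z
    rw [hnorm] at this
    exact this.symm
  have key : ∀ θ : ℝ, x 0 = 2 * ρ * Real.cos θ → x 1 = 2 * ρ * Real.sin θ →
      ((x, 0) : E3 × ℂ) = circ ρ θ := by
    intro θ e0 e1
    refine Prod.ext (e3_ext ?_ ?_ ?_) rfl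
    · rw [circ_0]; exact e0
    · rw [circ_1]; exact e1
    · rw [circ_2]
      show x 2 = _
      rw [h2]
      unfold hS
      rw [qq_congr (x := x) (y := (circ ρ θ).1)]
      · rw [circ_0]; exact e0
      · rw [circ_1]; exact e1
  have ha1 := Complex.neg_pi_lt_arg z
  have ha2 := Complex.arg_le_pi z
  rcases lt_or_ge z.arg 0 with h | h
  · refine ⟨z.arg + 2 * Real.pi, by linarith, by linarith, key _ ?_ ?_⟩
    · rw [Real.cos_add_two_pi]; exact h0
    · rw [Real.sin_add_two_pi]; exact h1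
  · exact ⟨z.arg, h, by linarith, key _ h0 h1⟩

lemma circ_inj {ρ : ℝ} (hρ : 0 < ρ) {θ θ' : ℝ} (h0 : 0 ≤ θ) (h1 : θ < 2 * Real.pi)
    (h0' : 0 ≤ θ') (h1' : θ' < 2 * Real.pi) (h : circ ρ θ = circ ρ θ') : θ = θ' := by
  have e0 : 2 * ρ * Real.cos θ = 2 * ρ * Real.cos θ' := by
    rw [← circ_0, ← circ_0, h]
  have e1 : 2 * ρ * Real.sin θ = 2 * ρ * Real.sin θ' := by
    rw [← circ_1, ← circ_1, h]
  have e2 : Real.cos θ = Real.cos θ' := mul_left_cancel₀ (by positivity) e0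
  have e3 : Real.sin θ = Real.sin θ' := mul_left_cancel₀ (by positivity) e1
  have e4 : Real.cos (θ - θ') = 1 := by
    rw [Real.cos_sub, e2, e3]
    have := Real.sin_sq_add_cos_sq θ'
    nlinarith
  rw [Real.cos_eq_one_iff_of_lt_of_lt (by linarith) (by linarith)] at e4
  linarith

lemma ang_strictMono : StrictMono ang := by
  have hpi := Real.pi_pos
  rw [Fin.strictMono_iff_lt_succ]
  intro i
  fin_cases i <;> simp [ang] <;> linarith

lemma ang_nonneg (i : Fin 6) : 0 ≤ ang i := by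
  have := ang_strictMono.monotone (Fin.zero_le i)
  exact this

lemma ang_le (i : Fin 6) : ang i ≤ 2 * Real.pi := by
  have := ang_strictMono.monotone (Fin.le_last i)
  exact this

lemma ang_castSucc_lt (i : Fin 5) : ang i.castSucc < 2 * Real.pi :=
  (ang_strictMono (Fin.castSucc_lt_succ (i := i))).trans_le (ang_le _)

/-- the position of an angle -/
lemma ang_cover {θ : ℝ} (h0 : 0 ≤ θ) (h1 : θ < 2 * Real.pi) :
    (∃ i : Fin 5, θ = ang i.castSucc) ∨ ∃ i : Fin 5, ang i.castSucc < θ ∧ θ < ang i.succ := by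
  by_contra hcon
  push Not at hcon
  obtain ⟨hc1, hc2⟩ := hcon
  have key : ∀ n : ℕ, ∀ hn : n < 6, ang ⟨n, hn⟩ ≤ θ := by
    intro n
    induction n with
    | zero => intro _; exact h0
    | succ n ih =>
      intro hn
      have hn' : n < 5 := by omega
      have h := ih (by omega)
      have h3 : ang (Fin.castSucc ⟨n, hn'⟩) < θ := lt_of_le_of_ne h (Ne.symm (hc1 ⟨n, hn'⟩))
      exact hc2 ⟨n, hn'⟩ h3
  have := key 5 (by norm_num)
  have h5 : ang ⟨5, by norm_num⟩ = 2 * Real.pi := rfl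
  rw [h5] at this
  linarith

end Pool.Agent.Tight.H58
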